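import Pool.Agent.N345.Fano.Plane

set_option autoImplicit false
set_option linter.unusedSectionVars false

/-!
# Quadrangles without collinear diagonal points
-/

namespace Pool.Agent.N345.Fano

open Finset Configuration Configuration.ProjectivePlane Pool.Agent.N367.PPD
open scoped Classical

noncomputable section

/-- a bad pair of rows gives at least three bad columns -/
theorem three_le {R C S : Type} [Fintype R] [Fintype C] [DecidableEq R] [DecidableEq C]
    [DecidableEq S] {τ : R → C ≃ S} (hL : Lat τ) {r r' : R} (h : Bad τ r r') :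
    3 ≤ (univ.filter fun c => sg τ r r' (sg τ r r' c) ≠ c).card := by
  have hne : r ≠ r' := by
    rintro rfl
    apply h
    ext c
    simp [sg]
  have hfp : ∀ c, sg τ r r' c ≠ c := by
    intro c e
    rw [sg_eq_iff] at e
    exact hne (hL.inj _ _ _ e)
  obtain ⟨c, hc⟩ : ∃ c, sg τ r r' (sg τ r r' c) ≠ c := by
    by_contra hcon
    push Not at hcon
    apply h
    ext c
    exact hcon c
  set g := sg τ r r'
  have h1 : c ≠ g c := (hfp c).symm
  have h2 : g c ≠ g (g c) := (hfp (g c)).symm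
  have h3 : g (g (g c)) ≠ g c := fun e => hc (g.injective e)
  have h4 : g (g (g (g c))) ≠ g (g c) := fun e => h3 (g.injective e)
  have h5 : ({c, g c, g (g c)} : Finset C).card = 3 := by
    rw [card_insert_of_notMem, card_insert_of_notMem, card_singleton]
    · simpa using h2
    · simp only [mem_insert, mem_singleton, not_or]
      exact ⟨h1, hc.symm⟩
  rw [← h5]
  refine card_le_card fun x hx => ?_
  simp only [mem_insert, mem_singleton] at hx
  simp only [mem_filter, mem_univ, true_and]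
  rcases hx with rfl | rfl | rfl
  · exact hc
  · exact h3
  · exact h4

variable {P L : Type} [Membership P L] [ProjectivePlane P L] [Fintype P] [Fintype L]

/-- the four points for two rows and a column -/
def quad {m : L} {a b d : P} (ha : a ∈ m) (hb : b ∈ m) (hd : d ∈ m) (hab : a ≠ b) (had : a ≠ d)
    (x : Pen m a × Pen m a × Pen m b) : Fin 4 → P :=
  ![pt x.1 x.2.2, pt x.1 (sg (tau ha hb hd hab had) x.1 x.2.1 x.2.2),
    pt x.2.1 (sg (tau ha hb hd hab had) x.1 x.2.1 x.2.2), pt x.2.1 x.2.2]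

/-- the bad triples -/
def viol {m : L} {a b d : P} (ha : a ∈ m) (hb : b ∈ m) (hd : d ∈ m) (hab : a ≠ b) (had : a ≠ d) :
    Finset (Pen m a × Pen m a × Pen m b) :=
  univ.filter fun x => sg (tau ha hb hd hab had) x.1 x.2.1
    (sg (tau ha hb hd hab had) x.1 x.2.1 x.2.2) ≠ x.2.2

theorem viol_large {m : L} {a b d : P} (ha : a ∈ m) (hb : b ∈ m) (hd : d ∈ m) (hab : a ≠ b)
    (had : a ≠ d) (hbd : b ≠ d) (hn : ¬ ∃ k, order P L = 2 ^ k) :
    order P L ^ 2 ≤ 8 * (viol ha hb hd hab had).card := by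
  have hL := tau_lat ha hb hd hab had hbd
  have hcb := card_pen (P := P) hb
  have hR : Nonempty (Pen m a) := by
    rw [← Fintype.card_pos_iff, card_pen (P := P) ha]
    have := one_lt_order P L
    omega
  have h1 : order P L ^ 2 ≤
      24 * (univ.filter fun p : Pen m a × Pen m a => Bad (tau ha hb hd hab had) p.1 p.2).card := by
    by_contra hcon
    push Not at hcon
    rw [← hcb] at hcon
    have := pow_two_of_few hL hcon
    rw [hcb] at this
    exact hn this
  have h2 : 3 * (univ.filter fun p : Pen m a × Pen m a =>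
      Bad (tau ha hb hd hab had) p.1 p.2).card ≤ (viol ha hb hd hab had).card := by
    have h3 : (viol ha hb hd hab had).card = ∑ p : Pen m a × Pen m a,
        (univ.filter fun c => sg (tau ha hb hd hab had) p.1 p.2
          (sg (tau ha hb hd hab had) p.1 p.2 c) ≠ c).card := by
      rw [viol]
      simp_rw [card_filter, Fintype.sum_prod_type]
    rw [h3, mul_comm, ← smul_eq_mul, ← sum_const]
    refine le_trans ?_ (sum_le_sum_of_subset (filter_subset
      (fun p : Pen m a × Pen m a => Bad (tau ha hb hd hab had) p.1 p.2) univ))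
    refine sum_le_sum fun p hp => ?_
    exact three_le hL (mem_filter.1 hp).2
  omega

theorem sg_ne {m : L} {a b d : P} (ha : a ∈ m) (hb : b ∈ m) (hd : d ∈ m) (hab : a ≠ b)
    (had : a ≠ d) {x : Pen m a × Pen m a × Pen m b}
    (hx : x ∈ viol ha hb hd hab had) :
    x.1 ≠ x.2.1 ∧ sg (tau ha hb hd hab had) x.1 x.2.1 x.2.2 ≠ x.2.2 := by
  rw [viol, mem_filter] at hx
  constructor
  · intro e
    apply hx.2
    rw [← e]
    simp [sg]
  · intro e
    apply hx.2
    rw [e, e]

variable (L)

/-- the three points are on a common line -/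
def OnLine (x y z : P) : Prop := ∃ l : L, x ∈ l ∧ y ∈ l ∧ z ∈ l

/-- a quadrangle: four points, no three of them on a line -/
def Quadrangle (p : Fin 4 → P) : Prop :=
  ∀ i j k : Fin 4, i ≠ j → i ≠ k → j ≠ k → ¬ OnLine L (p i) (p j) (p k)

/-- the diagonal points of the quadrangle are collinear -/
def IsFano (p : Fin 4 → P) : Prop :=
  ∃ x y z : P, OnLine L x (p 0) (p 1) ∧ OnLine L x (p 2) (p 3) ∧ OnLine L y (p 0) (p 2) ∧
    OnLine L y (p 1) (p 3) ∧ OnLine L z (p 0) (p 3) ∧ OnLine L z (p 1) (p 2) ∧ OnLine L x y z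

/-- the quadrangles with diagonal points `a = p₀p₁ ∩ p₂p₃` and `b = p₀p₃ ∩ p₁p₂` and with `d` on
`p₀p₂`, whose diagonal points are not collinear -/
def locNF (a b d : P) : Finset (Fin 4 → P) :=
  univ.filter fun p => Quadrangle L p ∧ OnLine L a (p 0) (p 1) ∧ OnLine L a (p 2) (p 3) ∧
    OnLine L b (p 0) (p 3) ∧ OnLine L b (p 1) (p 2) ∧ OnLine L d (p 0) (p 2) ∧ ¬ IsFano L p

variable {L}

section
variable {m : L} {a b d : P} (ha : a ∈ m) (hb : b ∈ m) (hd : d ∈ m) (hab : a ≠ b) (had : a ≠ d)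
  (hbd : b ≠ d)
include ha hb hd hab had hbd

/-- points in the same row and in different columns are different -/
theorem pt_ne {r : Pen m a} {c c' : Pen m b} (h : c ≠ c') : pt r c ≠ pt r c' := by
  intro e
  apply h
  have h1 := pt_off ha hb hab r c
  have h2 : pt r c ∈ c'.1 := by rw [e]; exact pt_right ha hb hab r c'
  rw [← toPen_eq hb h1 (pt_right ha hb hab r c), ← toPen_eq hb h1 h2]

theorem pt_ne' {r r' : Pen m a} {c c' : Pen m b} (h : r ≠ r') : pt r c ≠ pt r' c' := by
  intro e
  apply h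
  have h1 := pt_off ha hb hab r c
  have h2 : pt r c ∈ r'.1 := by rw [e]; exact pt_left ha hb hab r' c'
  rw [← toPen_eq ha h1 (pt_left ha hb hab r c), ← toPen_eq ha h1 h2]

/-- the only row through `pt r c` is `r` -/
theorem row_eq {r r' : Pen m a} {c : Pen m b} (h : pt r c ∈ r'.1) : r = r' := by
  have h1 := pt_off ha hb hab r c
  rw [← toPen_eq ha h1 (pt_left ha hb hab r c), ← toPen_eq ha h1 h]

theorem col_eq {r : Pen m a} {c c' : Pen m b} (h : pt r c ∈ c'.1) : c = c' := by
  have h1 := pt_off ha hb hab r c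
  rw [← toPen_eq hb h1 (pt_right ha hb hab r c), ← toPen_eq hb h1 h]

theorem quad_mem {x : Pen m a × Pen m a × Pen m b} (hx : x ∈ viol ha hb hd hab had) :
    quad ha hb hd hab had x ∈ locNF L a b d := by
  obtain ⟨hr, hc⟩ := sg_ne ha hb hd hab had hx
  rw [viol, mem_filter] at hx
  obtain ⟨r, r', c⟩ := x
  simp only at hr hc hx
  set c' := sg (tau ha hb hd hab had) r r' c with hc'
  have hx2 := hx.2
  have q0 : quad ha hb hd hab had (r, r', c) 0 = pt r c := rfl
  have q1 : quad ha hb hd hab had (r, r', c) 1 = pt r c' := rfl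
  have q2 : quad ha hb hd hab had (r, r', c) 2 = pt r' c' := rfl
  have q3 : quad ha hb hd hab had (r, r', c) 3 = pt r' c := rfl
  set p := quad ha hb hd hab had (r, r', c) with hp
  have l0 := pt_left ha hb hab r c
  have r0 := pt_right ha hb hab r c
  have l1 := pt_left ha hb hab r c'
  have r1 := pt_right ha hb hab r c'
  have l2 := pt_left ha hb hab r' c'
  have r2 := pt_right ha hb hab r' c'
  have l3 := pt_left ha hb hab r' c
  have r3 := pt_right ha hb hab r' c
  -- the lines of the quadrangle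
  have n01 : p 0 ≠ p 1 := by rw [q0, q1]; exact pt_ne ha hb hd hab had hbd hc.symm
  have n23 : p 2 ≠ p 3 := by rw [q2, q3]; exact pt_ne ha hb hd hab had hbd hc
  have n03 : p 0 ≠ p 3 := by rw [q0, q3]; exact pt_ne' ha hb hd hab had hbd hr
  have n12 : p 1 ≠ p 2 := by rw [q1, q2]; exact pt_ne' ha hb hd hab had hbd hr
  have n02 : p 0 ≠ p 2 := by rw [q0, q2]; exact pt_ne' ha hb hd hab had hbd hr
  have n13 : p 1 ≠ p 3 := by rw [q1, q3]; exact pt_ne' ha hb hd hab had hbd hr
  -- no three collinear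
  have t012 : ∀ l : L, p 0 ∈ l → p 1 ∈ l → p 2 ∈ l → False := by
    intro l h0 h1 h2
    have e : l = r.1 := line_eq n01 h0 h1 (by rw [q0]; exact l0) (by rw [q1]; exact l1)
    rw [e, q2] at h2
    exact hr (row_eq ha hb hd hab had hbd h2).symm
  have t013 : ∀ l : L, p 0 ∈ l → p 1 ∈ l → p 3 ∈ l → False := by
    intro l h0 h1 h3
    have e : l = r.1 := line_eq n01 h0 h1 (by rw [q0]; exact l0) (by rw [q1]; exact l1)
    rw [e, q3] at h3
    exact hr (row_eq ha hb hd hab had hbd h3).symm
  have t023 : ∀ l : L, p 0 ∈ l → p 2 ∈ l → p 3 ∈ l → False := by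
    intro l h0 h2 h3
    have e : l = r'.1 := line_eq n23 h2 h3 (by rw [q2]; exact l2) (by rw [q3]; exact l3)
    rw [e, q0] at h0
    exact hr (row_eq ha hb hd hab had hbd h0)
  have t123 : ∀ l : L, p 1 ∈ l → p 2 ∈ l → p 3 ∈ l → False := by
    intro l h1 h2 h3
    have e : l = r'.1 := line_eq n23 h2 h3 (by rw [q2]; exact l2) (by rw [q3]; exact l3)
    rw [e, q1] at h1
    exact hr (row_eq ha hb hd hab had hbd h1)
  -- the third vertex
  have hd02 : ∃ l : L, d ∈ l ∧ p 0 ∈ l ∧ p 2 ∈ l := by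
    refine ⟨(tau ha hb hd hab had r c).1, (tau ha hb hd hab had r c).2.1, ?_, ?_⟩
    · rw [q0]
      exact (tau_eq_iff ha hb hd hab had).1 rfl
    · rw [q2]
      have := sg_apply (tau ha hb hd hab had) r r' c
      exact (tau_eq_iff ha hb hd hab had).1 this
  have hd13 : ∀ l : L, d ∈ l → p 1 ∈ l → p 3 ∈ l → False := by
    intro l h0 h1 h3
    rw [q1] at h1
    rw [q3] at h3
    have hlm : l ≠ m := by
      rintro rfl
      exact pt_off ha hb hab r c' h1
    have e1 : tau ha hb hd hab had r c' = ⟨l, h0, hlm⟩ := (tau_eq_iff ha hb hd hab had).2 h1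
    have e2 : tau ha hb hd hab had r' c = ⟨l, h0, hlm⟩ := (tau_eq_iff ha hb hd hab had).2 h3
    exact hx2 (sg_eq_iff.2 (e1.trans e2.symm))
  rw [locNF, mem_filter]
  refine ⟨mem_univ _, ?_, ⟨r.1, r.2.1, by rw [q0]; exact l0, by rw [q1]; exact l1⟩,
    ⟨r'.1, r'.2.1, by rw [q2]; exact l2, by rw [q3]; exact l3⟩,
    ⟨c.1, c.2.1, by rw [q0]; exact r0, by rw [q3]; exact r3⟩,
    ⟨c'.1, c'.2.1, by rw [q1]; exact r1, by rw [q2]; exact r2⟩, hd02, ?_⟩
  · rintro i j k hij hik hjk ⟨l, hi, hj, hk⟩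
    fin_cases i <;> fin_cases j <;> fin_cases k <;> simp only [Fin.zero_eta, Fin.mk_one,
      Fin.reduceFinMk, ne_eq, not_true_eq_false] at * <;>
      first
        | exact absurd rfl hij
        | exact absurd rfl hik
        | exact absurd rfl hjk
        | exact t012 l (by assumption) (by assumption) (by assumption)
        | exact t013 l (by assumption) (by assumption) (by assumption)
        | exact t023 l (by assumption) (by assumption) (by assumption)
        | exact t123 l (by assumption) (by assumption) (by assumption)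
  · rintro ⟨x, y, z, ⟨l1', hx1, hx2', hx3⟩, ⟨l2', hx4, hx5, hx6⟩, ⟨l3', hy1, hy2, hy3⟩,
      ⟨l4', hy4, hy5, hy6⟩, ⟨l5', hz1, hz2, hz3⟩, ⟨l6', hz4, hz5, hz6⟩, ⟨l7, g1, g2, g3⟩⟩
    have e1 : l1' = r.1 := line_eq n01 hx2' hx3 (by rw [q0]; exact l0) (by rw [q1]; exact l1)
    have e2 : l2' = r'.1 := line_eq n23 hx5 hx6 (by rw [q2]; exact l2) (by rw [q3]; exact l3)
    have e5 : l5' = c.1 := line_eq n03 hz2 hz3 (by rw [q0]; exact r0) (by rw [q3]; exact r3)
    have e6 : l6' = c'.1 := line_eq n12 hz5 hz6 (by rw [q1]; exact r1) (by rw [q2]; exact r2)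
    rw [e1] at hx1
    rw [e2] at hx4
    rw [e5] at hz1
    rw [e6] at hz4
    have hrr : r.1 ≠ r'.1 := fun e => hr (Subtype.ext e)
    have hcc : c.1 ≠ c'.1 := fun e => hc (Subtype.ext e.symm)
    have xa : x = a := pt_eq hrr hx1 r.2.1 hx4 r'.2.1 |>.trans rfl
    have zb : z = b := pt_eq hcc hz1 c.2.1 hz4 c'.2.1 |>.trans rfl
    rw [xa] at g1
    rw [zb] at g3
    have e7 : l7 = m := line_eq hab g1 g3 ha hb
    rw [e7] at g2
    -- `y` is on `m` and on `p₀p₂`, so `y = d`
    obtain ⟨l, h1, h2, h3⟩ := hd02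
    have e3 : l3' = l := line_eq n02 hy2 hy3 h2 h3
    have hlm : l ≠ m := by
      rintro rfl
      rw [q0] at h2
      exact pt_off ha hb hab r c h2
    rw [e3] at hy1
    have yd : y = d := pt_eq hlm hy1 h1 g2 hd |>.trans rfl
    rw [yd] at hy4
    exact hd13 l4' hy4 hy5 hy6

theorem quad_inj : Set.InjOn (quad ha hb hd hab had) (viol ha hb hd hab had : Set _) := by
  rintro ⟨r, r', c⟩ - ⟨s, s', e⟩ - h
  have h0 : pt r c = pt s e := congrFun h 0
  have h3 : pt r' c = pt s' e := congrFun h 3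
  have e1 : r = s := row_eq ha hb hd hab had hbd (c := c) (by
    rw [h0]; exact pt_left ha hb hab s e)
  have e2 : c = e := col_eq ha hb hd hab had hbd (r := r) (by
    rw [h0]; exact pt_right ha hb hab s e)
  have e3 : r' = s' := row_eq ha hb hd hab had hbd (c := c) (by
    rw [h3]; exact pt_left ha hb hab s' e)
  rw [e1, e2, e3]

/-- **The local gap theorem.** -/
theorem local_gap (hn : ¬ ∃ k, order P L = 2 ^ k) :
    order P L ^ 2 ≤ 8 * (locNF L a b d).card := by
  refine (viol_large ha hb hd hab had hbd hn).trans ?_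
  gcongr
  refine card_le_card_of_injOn (quad ha hb hd hab had) ?_ (quad_inj ha hb hd hab had hbd)
  intro x hx
  exact quad_mem ha hb hd hab had hbd hx

end

variable (L)

/-- the quadrangles without collinear diagonal points -/
def allNF (P L : Type) [Membership P L] [ProjectivePlane P L] [Fintype P] [Fintype L] :
    Finset (Fin 4 → P) :=
  univ.filter fun p => Quadrangle L p ∧ ¬ IsFano L p

/-- the diagonal points of a quadrangle, and the intersection of `p₀p₂` with the line of the first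
two -/
def tri (p : Fin 4 → P) : P × P × P :=
  (mt P (jn L (p 0) (p 1)) (jn L (p 2) (p 3)), mt P (jn L (p 0) (p 3)) (jn L (p 1) (p 2)),
    mt P (jn L (p 0) (p 2)) (jn L (mt P (jn L (p 0) (p 1)) (jn L (p 2) (p 3)))
      (mt P (jn L (p 0) (p 3)) (jn L (p 1) (p 2)))))

/-- the ordered triples of different points on a line -/
def trips (P L : Type) [Membership P L] [ProjectivePlane P L] [Fintype P] [Fintype L] :
    Finset (P × P × P) :=
  univ.filter fun t => t.1 ≠ t.2.1 ∧ t.1 ≠ t.2.2 ∧ t.2.1 ≠ t.2.2 ∧ t.2.2 ∈ jn L t.1 t.2.1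

theorem card_trips : order P L ^ 5 ≤ (trips P L).card := by
  have h1 : (trips P L).card = ∑ a : P, ∑ b : P, (univ.filter fun d =>
      a ≠ b ∧ a ≠ d ∧ b ≠ d ∧ d ∈ jn L a b).card := by
    rw [trips]
    simp_rw [card_filter, Fintype.sum_prod_type]
  have h2 : ∀ a b : P, (univ.filter fun d => a ≠ b ∧ a ≠ d ∧ b ≠ d ∧ d ∈ jn L a b).card =
      if a = b then 0 else order P L - 1 := by
    intro a b
    by_cases hab : a = b
    · simp [hab]
    · rw [if_neg hab]
      have h3 : (univ.filter fun d => a ≠ b ∧ a ≠ d ∧ b ≠ d ∧ d ∈ jn L a b) =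
          ((pts (jn L a b) : Finset P).erase a).erase b := by
        ext d
        simp only [mem_filter, mem_univ, true_and, mem_erase, mem_pts, ne_eq]
        constructor
        · rintro ⟨-, h4, h5, h6⟩
          exact ⟨fun e => h5 e.symm, fun e => h4 e.symm, h6⟩
        · rintro ⟨h4, h5, h6⟩
          exact ⟨hab, fun e => h5 e.symm, fun e => h4 e.symm, h6⟩
      rw [h3, card_erase_of_mem, card_erase_of_mem, card_pts]
      · omega
      · rw [mem_pts]; exact jn_left hab
      · rw [mem_erase, mem_pts]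
        exact ⟨fun e => hab e.symm, jn_right hab⟩
  rw [h1]
  simp_rw [h2]
  have h3 : ∀ a : P, ∑ b : P, (if a = b then 0 else order P L - 1) =
      (Fintype.card P - 1) * (order P L - 1) := by
    intro a
    rw [← sum_erase_add _ _ (mem_univ a), if_pos rfl, add_zero,
      sum_congr rfl (g := fun _ => order P L - 1), sum_const, card_erase_of_mem (mem_univ _),
      card_univ, smul_eq_mul]
    intro b hb
    rw [if_neg (mem_erase.1 hb).1.symm]
  rw [sum_congr rfl (fun a _ => h3 a), sum_const, card_univ, smul_eq_mul, card_points P L]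
  have h4 := one_lt_order P L
  obtain ⟨n, hn⟩ : ∃ n, order P L = n + 2 := ⟨order P L - 2, by omega⟩
  rw [hn]
  have e1 : (n + 2) ^ 2 + (n + 2) + 1 - 1 = (n + 2) * (n + 3) := by
    rw [Nat.add_sub_cancel]; ring
  have e2 : n + 2 - 1 = n + 1 := rfl
  rw [e1, e2]
  nlinarith [sq_nonneg (n : ℤ), Nat.zero_le n, Nat.zero_le (n ^ 2), Nat.zero_le (n ^ 3),
    Nat.zero_le (n ^ 4)]

theorem exists_other (i j : Fin 4) : ∃ k : Fin 4, i ≠ k ∧ j ≠ k := by
  revert i j; decide

theorem global_gap (hn : ¬ ∃ k, order P L = 2 ^ k) : order P L ^ 7 ≤ 8 * (allNF P L).card := by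
  have h1 : ∑ t ∈ trips P L, order P L ^ 2 ≤ ∑ t ∈ trips P L,
      8 * ((allNF P L).filter fun p => tri L p = t).card := by
    refine sum_le_sum fun t ht => ?_
    obtain ⟨a, b, d⟩ := t
    rw [trips, mem_filter] at ht
    simp only [mem_univ, true_and] at ht
    obtain ⟨hab, had, hbd, hd⟩ := ht
    refine (local_gap (jn_left hab) (jn_right hab) hd hab had hbd hn).trans ?_
    refine Nat.mul_le_mul_left 8 (card_le_card ?_)
    intro p hp
    rw [locNF, mem_filter] at hp
    obtain ⟨-, hq, ⟨l1, a1, a2, a3⟩, ⟨l2, b1, b2, b3⟩, ⟨l3, c1, c2, c3⟩, ⟨l4, d1, d2, d3⟩,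
      ⟨l5, e1, e2, e3⟩, hf⟩ := hp
    rw [mem_filter, allNF, mem_filter]
    refine ⟨⟨mem_univ _, hq, hf⟩, ?_⟩
    -- the points are different
    have hl : ∀ i : Fin 4, ∃ l : L, p i ∈ l := by
      intro i
      fin_cases i
      · exact ⟨l1, a2⟩
      · exact ⟨l1, a3⟩
      · exact ⟨l2, b2⟩
      · exact ⟨l2, b3⟩
    have hex : ∀ i j : Fin 4, i ≠ j → p i ≠ p j := by
      intro i j hne hij
      obtain ⟨k, hk1, hk2⟩ := exists_other i j
      by_cases hpk : p i = p k
      · obtain ⟨l, hl⟩ := hl i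
        exact hq i j k hne hk1 hk2 ⟨l, hl, by rw [← hij]; exact hl, by rw [← hpk]; exact hl⟩
      · exact hq i j k hne hk1 hk2 ⟨jn L (p i) (p k), jn_left hpk, by rw [← hij]; exact jn_left hpk,
          jn_right hpk⟩
    have f1 : l1 = jn L (p 0) (p 1) := eq_jn (hex 0 1 (by decide)) a2 a3
    have f2 : l2 = jn L (p 2) (p 3) := eq_jn (hex 2 3 (by decide)) b2 b3
    have f3 : l3 = jn L (p 0) (p 3) := eq_jn (hex 0 3 (by decide)) c2 c3
    have f4 : l4 = jn L (p 1) (p 2) := eq_jn (hex 1 2 (by decide)) d2 d3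
    have f5 : l5 = jn L (p 0) (p 2) := eq_jn (hex 0 2 (by decide)) e2 e3
    have g1 : l1 ≠ l2 := by
      rintro rfl
      exact hq 0 1 2 (by decide) (by decide) (by decide) ⟨l1, a2, a3, b2⟩
    have g2 : l3 ≠ l4 := by
      rintro rfl
      exact hq 0 3 1 (by decide) (by decide) (by decide) ⟨l3, c2, c3, d2⟩
    have k1 : a = mt P l1 l2 := eq_mt g1 a1 b1
    have k2 : b = mt P l3 l4 := eq_mt g2 c1 d1
    have g3 : l5 ≠ jn L a b := by
      intro e
      have h5 : p 0 ∈ jn L a b := e ▸ e2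
      -- `a` and `b` on the line through `p 0`: then `p 1` is also on it
      have hm : ∀ l : L, a ∈ l → b ∈ l → l = jn L a b := fun l u v => eq_jn hab u v
      by_cases ha0 : a = p 0
      · -- then `p 0 ∈ l2`
        exact hq 2 3 0 (by decide) (by decide) (by decide) ⟨l2, b2, b3, by rw [← ha0]; exact b1⟩
      · have : jn L a b = l1 := line_eq ha0 (jn_left hab) h5 a1 a2
        exact hq 0 1 2 (by decide) (by decide) (by decide)
          ⟨l1, a2, a3, by rw [← this, ← e]; exact e3⟩
    have k3 : d = mt P l5 (jn L a b) := eq_mt g3 e1 hd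
    rw [tri, ← f1, ← f2, ← f3, ← f4, ← f5, ← k1, ← k2, ← k3]
  have h2 : ∑ t ∈ trips P L, ((allNF P L).filter fun p => tri L p = t).card ≤
      (allNF P L).card := by
    rw [Finset.sum_card_fiberwise_eq_card_filter]
    exact card_filter_le _ _
  rw [sum_const, smul_eq_mul, ← mul_sum] at h1
  calc order P L ^ 7 = order P L ^ 5 * order P L ^ 2 := by ring
    _ ≤ (trips P L).card * order P L ^ 2 := Nat.mul_le_mul_right _ (card_trips L)
    _ ≤ _ := h1
    _ ≤ 8 * (allNF P L).card := Nat.mul_le_mul_left 8 h2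

end

end Pool.Agent.N345.Fano
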