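import Pool.Agent.N345.Fano.Rows
import Pool.Agent.N367.PPD.Basic

set_option autoImplicit false
set_option linter.unusedSectionVars false

/-!
# The latin square of three collinear points of a projective plane
-/

namespace Pool.Agent.N345.Fano

open Finset Configuration Configuration.ProjectivePlane Pool.Agent.N367.PPD
open scoped Classical

noncomputable section

variable {P L : Type} [Membership P L] [ProjectivePlane P L]

/-- the lines through `a` other than `m` -/
abbrev Pen (m : L) (a : P) : Type := {l : L // a ∈ l ∧ l ≠ m}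

section net
variable {m : L} {a b d : P}

theorem pen_ne (ha : a ∈ m) (hb : b ∈ m) (hab : a ≠ b) (r : Pen m a) (c : Pen m b) :
    r.1 ≠ c.1 := by
  intro e
  exact r.2.2 (line_eq hab r.2.1 (e ▸ c.2.1) ha hb)

/-- a point common to two lines through different points of `m` is not on `m` -/
theorem off (ha : a ∈ m) (hb : b ∈ m) (hab : a ≠ b) (r : Pen m a) (c : Pen m b) {p : P}
    (h1 : p ∈ r.1) (h2 : p ∈ c.1) : p ∉ m := by
  intro hp
  have e1 : p = a := pt_eq r.2.2 h1 r.2.1 hp ha |>.trans rfl
  have e2 : p = b := pt_eq c.2.2 h2 c.2.1 hp hb |>.trans rfl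
  exact hab (e1.symm.trans e2)

/-- the line joining a point off `m` with a point of `m` -/
def toPen (m : L) (a : P) (ha : a ∈ m) (p : P) (hp : p ∉ m) : Pen m a :=
  ⟨jn L p a, jn_right (fun e => hp (by rw [e]; exact ha)), fun e => by
    have hpa : p ≠ a := fun e' => hp (by rw [e']; exact ha)
    have h1 : p ∈ jn L p a := jn_left hpa
    rw [e] at h1
    exact hp h1⟩

theorem toPen_mem (ha : a ∈ m) {p : P} (hp : p ∉ m) : p ∈ (toPen m a ha p hp).1 := by
  have hpa : p ≠ a := fun e' => hp (by rw [e']; exact ha)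
  exact jn_left hpa

theorem toPen_eq (ha : a ∈ m) {p : P} (hp : p ∉ m) {r : Pen m a} (h : p ∈ r.1) :
    toPen m a ha p hp = r :=
  Subtype.ext (eq_jn (fun e => hp (by rw [e]; exact ha)) h r.2.1).symm

/-- the point in row `r` and column `c` -/
def pt (r : Pen m a) (c : Pen m b) : P := mt P r.1 c.1

theorem pt_left (ha : a ∈ m) (hb : b ∈ m) (hab : a ≠ b) (r : Pen m a) (c : Pen m b) :
    pt r c ∈ r.1 := mt_left (pen_ne ha hb hab r c)

theorem pt_right (ha : a ∈ m) (hb : b ∈ m) (hab : a ≠ b) (r : Pen m a) (c : Pen m b) :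
    pt r c ∈ c.1 := mt_right (pen_ne ha hb hab r c)

theorem pt_off (ha : a ∈ m) (hb : b ∈ m) (hab : a ≠ b) (r : Pen m a) (c : Pen m b) :
    pt r c ∉ m := off ha hb hab r c (pt_left ha hb hab r c) (pt_right ha hb hab r c)

theorem eq_pt (ha : a ∈ m) (hb : b ∈ m) (hab : a ≠ b) {r : Pen m a} {c : Pen m b} {p : P}
    (h1 : p ∈ r.1) (h2 : p ∈ c.1) : p = pt r c := eq_mt (pen_ne ha hb hab r c) h1 h2

/-- the latin square -/
def tau (ha : a ∈ m) (hb : b ∈ m) (hd : d ∈ m) (hab : a ≠ b) (had : a ≠ d) (r : Pen m a) :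
    Pen m b ≃ Pen m d where
  toFun c := toPen m d hd (pt r c) (pt_off ha hb hab r c)
  invFun s := toPen m b hb (pt r s) (pt_off ha hd had r s)
  left_inv c := by
    refine toPen_eq hb _ ?_
    have h1 : pt r c = pt r (toPen m d hd (pt r c) (pt_off ha hb hab r c)) :=
      eq_pt ha hd had (pt_left ha hb hab r c) (toPen_mem hd _)
    rw [← h1]
    exact pt_right ha hb hab r c
  right_inv s := by
    refine toPen_eq hd _ ?_
    have h1 : pt r s = pt r (toPen m b hb (pt r s) (pt_off ha hd had r s)) :=
      eq_pt ha hb hab (pt_left ha hd had r s) (toPen_mem hb _)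
    rw [← h1]
    exact pt_right ha hd had r s

theorem tau_eq_iff (ha : a ∈ m) (hb : b ∈ m) (hd : d ∈ m) (hab : a ≠ b) (had : a ≠ d)
    {r : Pen m a} {c : Pen m b} {s : Pen m d} :
    tau ha hb hd hab had r c = s ↔ pt r c ∈ s.1 := by
  constructor
  · intro h
    rw [← h]
    exact toPen_mem hd (pt_off ha hb hab r c)
  · intro h
    exact toPen_eq hd (pt_off ha hb hab r c) h

theorem tau_lat (ha : a ∈ m) (hb : b ∈ m) (hd : d ∈ m) (hab : a ≠ b) (had : a ≠ d)
    (hbd : b ≠ d) : Lat (tau ha hb hd hab had) := by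
  constructor
  · intro c s
    refine ⟨toPen m a ha (pt c s) (pt_off hb hd hbd c s), ?_⟩
    rw [tau_eq_iff]
    have h1 : pt c s = pt (toPen m a ha (pt c s) (pt_off hb hd hbd c s)) c :=
      eq_pt ha hb hab (toPen_mem ha _) (pt_left hb hd hbd c s)
    rw [← h1]
    exact pt_right hb hd hbd c s
  · intro r r' c h
    have h1 : pt r c ∈ (tau ha hb hd hab had r c).1 := (tau_eq_iff ha hb hd hab had).1 rfl
    have h2 : pt r' c ∈ (tau ha hb hd hab had r c).1 := (tau_eq_iff ha hb hd hab had).1 h.symm
    have e1 := eq_pt hb hd hbd (pt_right ha hb hab r c) h1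
    have e2 := eq_pt hb hd hbd (pt_right ha hb hab r' c) h2
    have e3 : pt r c = pt r' c := e1.trans e2.symm
    have h3 := pt_left ha hb hab r c
    have h4 : pt r c ∈ r'.1 := by rw [e3]; exact pt_left ha hb hab r' c
    have h5 := pt_off ha hb hab r c
    rw [← toPen_eq ha h5 h3, ← toPen_eq ha h5 h4]

end net

variable [Fintype P] [Fintype L]

theorem card_pen {m : L} {a : P} (ha : a ∈ m) : Fintype.card (Pen m a) = order P L := by
  have h1 := card_lns (L := L) a
  have h2 : (lns a : Finset L).card = (univ.filter fun l : L => a ∈ l ∧ l ≠ m).card + 1 := by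
    have : (lns a : Finset L) = insert m (univ.filter fun l : L => a ∈ l ∧ l ≠ m) := by
      ext l
      simp only [mem_lns, mem_insert, mem_filter, mem_univ, true_and]
      constructor
      · intro h
        by_cases hl : l = m
        · exact Or.inl hl
        · exact Or.inr ⟨h, hl⟩
      · rintro (rfl | h)
        · exact ha
        · exact h.1
    rw [this, card_insert_of_notMem (by simp)]
  rw [Fintype.card_subtype]
  omega

end

end Pool.Agent.N345.Fano
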