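import Mathlib

set_option autoImplicit false
set_option linter.unusedSectionVars false

/-!
# Latin squares in which most pairs of rows are unions of intercalates

`τ r : C ≃ S` is the row `r` of a latin square. If all but fewer than `n² / 24` ordered pairs of rows
are unions of intercalates, then `n` is a power of two.
-/

namespace Pool.Agent.N345.Fano

open Finset

variable {R C S : Type} [Fintype R] [Fintype C] [DecidableEq R] [DecidableEq C] [DecidableEq S]

/-- a latin square, as a family of bijections from the columns to the symbols -/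
structure Lat (τ : R → C ≃ S) : Prop where
  ex : ∀ c s, ∃ r, τ r c = s
  inj : ∀ r r' c, τ r c = τ r' c → r = r'

/-- the permutation of the columns for two rows -/
def sg (τ : R → C ≃ S) (r r' : R) : Equiv.Perm C := (τ r).trans (τ r').symm

theorem sg_apply (τ : R → C ≃ S) (r r' : R) (c : C) : τ r' (sg τ r r' c) = τ r c := by
  simp [sg]

theorem sg_eq_iff {τ : R → C ≃ S} {r r' : R} {c c' : C} :
    sg τ r r' c = c' ↔ τ r c = τ r' c' := by
  simp only [sg, Equiv.trans_apply]
  rw [Equiv.symm_apply_eq]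

/-- the pair `r, r'` is bad: the two rows are not a union of intercalates -/
def Bad (τ : R → C ≃ S) (r r' : R) : Prop := sg τ r r' * sg τ r r' ≠ 1

instance (τ : R → C ≃ S) (r r' : R) : Decidable (Bad τ r r') := by
  unfold Bad; infer_instance

theorem sg_inv (τ : R → C ≃ S) (r r' : R) : sg τ r' r = (sg τ r r')⁻¹ := by
  ext c
  simp [sg, Equiv.Perm.inv_def]

theorem bad_symm {τ : R → C ≃ S} {r r' : R} : Bad τ r r' ↔ Bad τ r' r := by
  unfold Bad
  rw [sg_inv τ r r', ← mul_inv_rev, ne_eq, ne_eq, inv_eq_one]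

/-- the bad partners -/
def bp (τ : R → C ≃ S) (r : R) : Finset R := univ.filter fun r' => Bad τ r r'

theorem mem_bp {τ : R → C ≃ S} {r r' : R} : r' ∈ bp τ r ↔ Bad τ r r' := by simp [bp]

variable {τ : R → C ≃ S} (hL : Lat τ)

section base
variable (r0 : R)

/-- the row `r` relative to the row `r0` -/
def u (τ : R → C ≃ S) (r0 r : R) : Equiv.Perm C := sg τ r0 r

include hL

/-- for `c, c'` there is exactly one row `r` with `u r c = c'` -/
theorem u_ex (c c' : C) : ∃ r, u τ r0 r c = c' := by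
  obtain ⟨r, hr⟩ := hL.ex c' (τ r0 c)
  exact ⟨r, sg_eq_iff.2 hr.symm⟩

theorem u_inj {r r' : R} {c : C} (h : u τ r0 r c = u τ r0 r' c) : r = r' := by
  have h1 : τ r0 c = τ r (u τ r0 r c) := (sg_eq_iff.1 rfl)
  have h2 : τ r0 c = τ r' (u τ r0 r' c) := (sg_eq_iff.1 rfl)
  rw [← h] at h2
  exact hL.inj _ _ _ (h1.symm.trans h2)

omit hL in
theorem u_sq {r : R} (h : ¬ Bad τ r0 r) : u τ r0 r * u τ r0 r = 1 := by
  unfold Bad at h
  rw [not_not] at h
  exact h

omit hL in
theorem sg_eq_u (r r' : R) : sg τ r r' = u τ r0 r' * (u τ r0 r)⁻¹ := by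
  ext c
  simp [u, sg, Equiv.Perm.inv_def]

omit hL in
/-- rows which are good with each other and with `r0` give commuting involutions -/
theorem u_comm {r r' : R} (h : ¬ Bad τ r0 r) (h' : ¬ Bad τ r0 r') (hh : ¬ Bad τ r r') :
    u τ r0 r * u τ r0 r' = u τ r0 r' * u τ r0 r := by
  have h1 := u_sq r0 h
  have h2 := u_sq r0 h'
  unfold Bad at hh
  rw [not_not, sg_eq_u r0] at hh
  set a := u τ r0 r
  set b := u τ r0 r'
  have e1 : a⁻¹ = a := inv_eq_of_mul_eq_one_left h1
  have e2 : b⁻¹ = b := inv_eq_of_mul_eq_one_left h2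
  rw [e1] at hh
  have e3 : (b * a)⁻¹ = b * a := inv_eq_of_mul_eq_one_left hh
  rw [← e3, mul_inv_rev, e1, e2]

/-- the rows that are good with `r0` and with most rows -/
def good (τ : R → C ≃ S) (r0 : R) : Finset R :=
  univ.filter fun r => ¬ Bad τ r0 r ∧ 7 * (bp τ r).card < Fintype.card C

end base

/-- the permutations in a set of pairwise commuting involutions that moves each point to more than
half of the points generate a regular elementary abelian group -/
theorem pow_two_of_comm [Nonempty C] (X : Set (Equiv.Perm C))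
    (hsq : ∀ g ∈ X, g * g = 1) (hcomm : ∀ g ∈ X, ∀ h ∈ X, g * h = h * g)
    (htr : ∀ x y : C, ∃ g ∈ X, ∃ h ∈ X, g x = h y) : ∃ k, Fintype.card C = 2 ^ k := by
  classical
  set H := Subgroup.closure X with hH
  have hHcomm : ∀ g ∈ H, ∀ h ∈ H, g * h = h * g := by
    intro g hg h hh
    have h1 : ∀ y ∈ X, y ∈ Subgroup.centralizer (X : Set (Equiv.Perm C)) := by
      intro y hy
      rw [Subgroup.mem_centralizer_iff]
      intro z hz
      exact hcomm z hz y hy
    have h2 : H ≤ Subgroup.centralizer (X : Set (Equiv.Perm C)) := by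
      rw [hH, Subgroup.closure_le]
      exact h1
    have h3 : H ≤ Subgroup.centralizer (H : Set (Equiv.Perm C)) := by
      rw [hH, Subgroup.closure_le]
      intro y hy
      rw [SetLike.mem_coe, Subgroup.mem_centralizer_iff]
      intro z hz
      have := h2 hz
      rw [Subgroup.mem_centralizer_iff] at this
      exact (this y hy).symm
    have := h3 hh
    rw [Subgroup.mem_centralizer_iff] at this
    exact this g hg
  have hHsq : ∀ g ∈ H, g * g = 1 := by
    intro g hg
    refine Subgroup.closure_induction (p := fun g _ => g * g = 1) ?_ ?_ ?_ ?_ hg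
    · intro x hx
      exact hsq x hx
    · simp
    · intro x y hx hy h1 h2
      calc x * y * (x * y) = x * (y * x) * y := by group
        _ = x * (x * y) * y := by rw [hHcomm y hy x hx]
        _ = (x * x) * (y * y) := by group
        _ = 1 := by rw [h1, h2, one_mul]
    · intro x _ h1
      rw [← mul_inv_rev, h1, inv_one]
  have htrans : ∀ x y : C, ∃ g ∈ H, g x = y := by
    intro x y
    obtain ⟨g, hg, h, hh, e⟩ := htr x y
    refine ⟨h⁻¹ * g, H.mul_mem (H.inv_mem (Subgroup.subset_closure hh))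
      (Subgroup.subset_closure hg), ?_⟩
    rw [Equiv.Perm.mul_apply, e]
    simp
  have hreg : ∀ g ∈ H, ∀ x, g x = x → g = 1 := by
    intro g hg x hx
    ext y
    obtain ⟨h, hh, rfl⟩ := htrans x y
    rw [← Equiv.Perm.mul_apply, hHcomm g hg h hh, Equiv.Perm.mul_apply, hx]
    rfl
  obtain ⟨x0⟩ := (inferInstance : Nonempty C)
  have hcard : Nat.card H = Fintype.card C := by
    rw [← Nat.card_eq_fintype_card]
    refine Nat.card_congr (Equiv.ofBijective (fun g : H => (g : Equiv.Perm C) x0) ⟨?_, ?_⟩)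
    · intro g h e
      have h1 : ((h : Equiv.Perm C)⁻¹ * g) x0 = x0 := by
        have e' : (g : Equiv.Perm C) x0 = (h : Equiv.Perm C) x0 := e
        rw [Equiv.Perm.mul_apply, e']
        simp
      have h2 := hreg _ (H.mul_mem (H.inv_mem h.2) g.2) x0 h1
      exact Subtype.ext (inv_mul_eq_one.1 h2).symm
    · intro y
      obtain ⟨g, hg, e⟩ := htrans x0 y
      exact ⟨⟨g, hg⟩, e⟩
  have hp : IsPGroup 2 H := by
    intro g
    refine ⟨1, ?_⟩
    rw [pow_one, sq]
    exact Subtype.ext (hHsq g.1 g.2)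
  obtain ⟨k, hk⟩ := hp.exists_card_eq
  exact ⟨k, by rw [← hcard, hk]⟩

include hL

theorem card_R [Nonempty C] (r0 : R) : Fintype.card R = Fintype.card C := by
  obtain ⟨c⟩ := (inferInstance : Nonempty C)
  refine Fintype.card_of_bijective (f := fun r => u τ r0 r c) ⟨?_, ?_⟩
  · intro r r' h
    exact u_inj hL r0 h
  · intro c'
    exact u_ex hL r0 c c'

/-- two sets of columns with more than half of the columns each meet -/
theorem meet_of_half {X Y : Finset C} (h : Fintype.card C < X.card + Y.card) :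
    ∃ z, z ∈ X ∧ z ∈ Y := by
  by_contra hcon
  push Not at hcon
  have h1 : Disjoint X Y := Finset.disjoint_left.2 hcon
  have h2 := card_union_of_disjoint h1
  have h3 := card_le_univ (X ∪ Y)
  omega

/-- **Exactness**: few bad pairs force `n` to be a power of two. -/
theorem pow_two_of_few [Nonempty R]
    (h : 24 * (univ.filter fun p : R × R => Bad τ p.1 p.2).card < Fintype.card C ^ 2) :
    ∃ k, Fintype.card C = 2 ^ k := by
  classical
  obtain ⟨r1⟩ := (inferInstance : Nonempty R)
  set n := Fintype.card C with hn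
  have hn0 : 0 < n := by
    by_contra hcon
    have : n = 0 := by omega
    rw [this] at h
    simp at h
  have hC : Nonempty C := Fintype.card_pos_iff.1 hn0
  have hR : Fintype.card R = n := card_R hL r1
  have hsum : (univ.filter fun p : R × R => Bad τ p.1 p.2).card = ∑ r, (bp τ r).card := by
    rw [card_filter, ← univ_product_univ, sum_product]
    refine sum_congr rfl fun r _ => ?_
    rw [bp, card_filter]
  rw [hsum] at h
  -- a good base row
  obtain ⟨r0, hr0⟩ : ∃ r0, 24 * (bp τ r0).card < n := by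
    by_contra hcon
    push Not at hcon
    have h1 : ∑ r : R, n ≤ ∑ r : R, 24 * (bp τ r).card := sum_le_sum fun r _ => hcon r
    rw [sum_const, card_univ, hR, smul_eq_mul, ← mul_sum] at h1
    nlinarith
  -- few rows are not good
  have hG : 3 * ((good τ r0)ᶜ).card < n := by
    have h1 : (good τ r0)ᶜ ⊆ bp τ r0 ∪ univ.filter fun r => n ≤ 7 * (bp τ r).card := by
      intro r hr
      rw [mem_compl, good, mem_filter] at hr
      rw [mem_union, mem_bp, mem_filter]
      by_contra hcon
      push Not at hcon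
      exact hr ⟨mem_univ _, hcon.1, hcon.2 (mem_univ _)⟩
    have h2 : 24 * (univ.filter fun r => n ≤ 7 * (bp τ r).card).card < 7 * n := by
      have h3 : ∑ r ∈ univ.filter (fun r => n ≤ 7 * (bp τ r).card), n ≤
          ∑ r : R, 7 * (bp τ r).card := by
        refine (sum_le_sum fun r hr => (mem_filter.1 hr).2).trans ?_
        exact sum_le_sum_of_subset (filter_subset _ _)
      rw [sum_const, smul_eq_mul, ← mul_sum] at h3
      by_contra hcon
      push Not at hcon
      nlinarith
    have h4 := (card_le_card h1).trans (card_union_le _ _)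
    omega
  have hgm : ∀ r, r ∈ good τ r0 → ¬ Bad τ r0 r ∧ 7 * (bp τ r).card < n := by
    intro r hr
    exact (mem_filter.1 hr).2
  -- images of sets of rows
  have himg : ∀ (W : Finset R) (x : C), (W.image fun w => u τ r0 w x).card = W.card := by
    intro W x
    exact card_image_of_injective _ fun a b e => u_inj hL r0 e
  -- products
  have hprod : ∀ r ∈ good τ r0, ∀ r' ∈ good τ r0, ∀ r'' ∈ good τ r0, ∀ x,
      u τ r0 r'' x = u τ r0 r (u τ r0 r' x) → u τ r0 r'' = u τ r0 r * u τ r0 r' := by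
    intro r hr r' hr' r'' hr'' x hx
    obtain ⟨g1, g2⟩ := hgm r hr
    obtain ⟨g3, g4⟩ := hgm r' hr'
    obtain ⟨g5, g6⟩ := hgm r'' hr''
    set W : Finset R := (bp τ r0 ∪ bp τ r ∪ bp τ r' ∪ bp τ r'')ᶜ with hW
    have hWc : n < 2 * W.card := by
      have h1 := card_union_le (bp τ r0 ∪ bp τ r ∪ bp τ r') (bp τ r'')
      have h2 := card_union_le (bp τ r0 ∪ bp τ r) (bp τ r')
      have h3 := card_union_le (bp τ r0) (bp τ r)
      have h4 : W.card = n - (bp τ r0 ∪ bp τ r ∪ bp τ r' ∪ bp τ r'').card := by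
        rw [hW, card_compl, hR]
      omega
    have hWm : ∀ w ∈ W, ¬ Bad τ r0 w ∧ ¬ Bad τ r w ∧ ¬ Bad τ r' w ∧ ¬ Bad τ r'' w := by
      intro w hw
      rw [hW, mem_compl, mem_union, mem_union, mem_union, mem_bp, mem_bp, mem_bp, mem_bp] at hw
      tauto
    set Agr : Finset C := univ.filter fun y => u τ r0 r'' y = u τ r0 r (u τ r0 r' y) with hAgr
    have hAc : W.card ≤ Agr.card := by
      rw [← himg W x]
      refine card_le_card fun y hy => ?_
      obtain ⟨w, hw, rfl⟩ := mem_image.1 hy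
      obtain ⟨w0, w1, w2, w3⟩ := hWm w hw
      rw [hAgr, mem_filter]
      refine ⟨mem_univ _, ?_⟩
      have c1 := u_comm r0 g1 w0 w1
      have c2 := u_comm r0 g3 w0 w2
      have c3 := u_comm r0 g5 w0 w3
      have e1 : u τ r0 r'' (u τ r0 w x) = u τ r0 w (u τ r0 r'' x) := by
        rw [← Equiv.Perm.mul_apply, c3, Equiv.Perm.mul_apply]
      have e2 : u τ r0 r' (u τ r0 w x) = u τ r0 w (u τ r0 r' x) := by
        rw [← Equiv.Perm.mul_apply, c2, Equiv.Perm.mul_apply]
      have e3 : u τ r0 r (u τ r0 w (u τ r0 r' x)) = u τ r0 w (u τ r0 r (u τ r0 r' x)) := by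
        rw [← Equiv.Perm.mul_apply, c1, Equiv.Perm.mul_apply]
      rw [e1, e2, e3, hx]
    ext y
    obtain ⟨z, hz1, hz2⟩ := meet_of_half hL (X := W.image fun w => u τ r0 w y) (Y := Agr)
      (by rw [himg]; omega)
    obtain ⟨w, hw, rfl⟩ := mem_image.1 hz1
    obtain ⟨w0, w1, w2, w3⟩ := hWm w hw
    rw [hAgr, mem_filter] at hz2
    have c1 := u_comm r0 g1 w0 w1
    have c2 := u_comm r0 g3 w0 w2
    have c3 := u_comm r0 g5 w0 w3
    have e1 : u τ r0 r'' (u τ r0 w y) = u τ r0 w (u τ r0 r'' y) := by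
      rw [← Equiv.Perm.mul_apply, c3, Equiv.Perm.mul_apply]
    have e2 : u τ r0 r' (u τ r0 w y) = u τ r0 w (u τ r0 r' y) := by
      rw [← Equiv.Perm.mul_apply, c2, Equiv.Perm.mul_apply]
    have e3 : u τ r0 r (u τ r0 w (u τ r0 r' y)) = u τ r0 w (u τ r0 r (u τ r0 r' y)) := by
      rw [← Equiv.Perm.mul_apply, c1, Equiv.Perm.mul_apply]
    have e4 := hz2.2
    rw [e1, e2, e3] at e4
    rw [Equiv.Perm.mul_apply]
    exact (u τ r0 w).injective e4
  -- all good rows commute
  have hcomm : ∀ s ∈ good τ r0, ∀ t ∈ good τ r0, u τ r0 s * u τ r0 t = u τ r0 t * u τ r0 s := by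
    intro s hs t ht
    obtain ⟨g1, g2⟩ := hgm s hs
    obtain ⟨g3, g4⟩ := hgm t ht
    obtain ⟨x⟩ := hC
    choose f hf using fun w => u_ex hL r0 x (u τ r0 s (u τ r0 w x))
    have hfi : Function.Injective f := by
      intro w w' e
      have h1 := hf w
      rw [e, hf w'] at h1
      exact (u_inj hL r0 ((u τ r0 s).injective h1)).symm
    have hpre : ∀ X : Finset R, (univ.filter fun w => f w ∈ X).card ≤ X.card := by
      intro X
      refine card_le_card_of_injOn f ?_ hfi.injOn
      intro w hw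
      exact (mem_filter.1 hw).2
    obtain ⟨w, hw⟩ : ∃ w, w ∉ (good τ r0)ᶜ ∪ (univ.filter fun w => f w ∈ (good τ r0)ᶜ) ∪
        bp τ t ∪ (univ.filter fun w => f w ∈ bp τ t) := by
      by_contra hcon
      push Not at hcon
      have h1 : (univ : Finset R) ⊆ (good τ r0)ᶜ ∪ (univ.filter fun w => f w ∈ (good τ r0)ᶜ) ∪
        bp τ t ∪ (univ.filter fun w => f w ∈ bp τ t) := fun w _ => hcon w
      have h2 := card_le_card h1
      rw [card_univ, hR] at h2
      have h3 := card_union_le ((good τ r0)ᶜ ∪ (univ.filter fun w => f w ∈ (good τ r0)ᶜ) ∪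
        bp τ t) (univ.filter fun w => f w ∈ bp τ t)
      have h4 := card_union_le ((good τ r0)ᶜ ∪ (univ.filter fun w => f w ∈ (good τ r0)ᶜ))
        (bp τ t)
      have h5 := card_union_le ((good τ r0)ᶜ) (univ.filter fun w => f w ∈ (good τ r0)ᶜ)
      have h6 := hpre (good τ r0)ᶜ
      have h7 := hpre (bp τ t)
      omega
    simp only [mem_union, mem_compl, mem_filter, mem_univ, true_and, mem_bp, not_or, not_not] at hw
    obtain ⟨⟨⟨w1, w2⟩, w3⟩, w4⟩ := hw
    have p1 := hprod s hs w w1 (f w) w2 x (hf w)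
    have q1 := u_comm r0 g3 (hgm w w1).1 w3
    have q2 := u_comm r0 g3 (hgm (f w) w2).1 w4
    have p2 : u τ r0 s = u τ r0 (f w) * (u τ r0 w)⁻¹ := by
      rw [p1]; group
    have q1' : Commute (u τ r0 t) (u τ r0 w) := q1
    have q2' : Commute (u τ r0 t) (u τ r0 (f w)) := q2
    rw [p2]
    exact ((q2'.mul_right q1'.inv_right).symm).eq
  refine pow_two_of_comm {g | ∃ s ∈ good τ r0, g = u τ r0 s} ?_ ?_ ?_
  · rintro g ⟨s, hs, rfl⟩
    exact u_sq r0 (hgm s hs).1
  · rintro g ⟨s, hs, rfl⟩ h ⟨t, ht, rfl⟩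
    exact hcomm s hs t ht
  · intro x y
    have h1 := card_compl (good τ r0)
    rw [hR] at h1
    obtain ⟨z, hz1, hz2⟩ := meet_of_half hL (X := (good τ r0).image fun w => u τ r0 w x)
      (Y := (good τ r0).image fun w => u τ r0 w y) (by rw [himg, himg]; omega)
    obtain ⟨s, hs, e1⟩ := mem_image.1 hz1
    obtain ⟨t, ht, e2⟩ := mem_image.1 hz2
    exact ⟨_, ⟨s, hs, rfl⟩, _, ⟨t, ht, rfl⟩, e1.trans e2.symm⟩

end Pool.Agent.N345.Fano
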